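import Mathlib
import Pool.Agent.H3.SymTop

namespace Pool.Agent.Results.MP_8d0ff6_al.StandardTopologies

open Equiv Topology

/-- The normal subgroup `N_c`: permutations of `ℤ` moving only finitely many points. -/
def finitary : Subgroup (Equiv.Perm ℤ) where
  carrier := {g | {x | g x ≠ x}.Finite}
  mul_mem' := by
    intro a b ha hb
    refine (Set.Finite.union ha hb).subset ?_
    intro x hx
    by_contra h
    simp only [Set.mem_union, Set.mem_ofPred_eq, not_or, not_not] at h
    exact hx (by rw [Perm.mul_apply, h.2, h.1])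
  one_mem' := by simp
  inv_mem' := by
    intro a ha
    refine Set.Finite.subset ha ?_
    intro x hx h
    exact hx (by rw [Perm.inv_eq_iff_eq]; exact h.symm)

/-- The normal subgroup `N_b`: finitary even permutations of `ℤ`, i.e. products of an even
number of transpositions (the subgroup generated by the products of two transpositions). -/
def finitaryEven : Subgroup (Equiv.Perm ℤ) :=
  Subgroup.closure {g | ∃ a b c d : ℤ, a ≠ b ∧ c ≠ d ∧ g = Equiv.swap a b * Equiv.swap c d}

/-- The topology `τ_N`: a set `s` is open iff around each of its points `g` it contains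
`g (Stab(F) ∩ N)` for some finite set `F`. -/
def standardTopology (N : Subgroup (Equiv.Perm ℤ)) : TopologicalSpace (Equiv.Perm ℤ) where
  IsOpen s := ∀ g ∈ s, ∃ F : Finset ℤ, ∀ h ∈ N, (∀ x ∈ F, h x = x) → g * h ∈ s
  isOpen_univ := fun _ _ => ⟨∅, fun _ _ _ => trivial⟩
  isOpen_inter := by
    rintro s t hs ht g ⟨hgs, hgt⟩
    obtain ⟨F, hF⟩ := hs g hgs
    obtain ⟨F', hF'⟩ := ht g hgt
    refine ⟨F ∪ F', fun h hh hx => ⟨hF h hh fun x hxF => ?_, hF' h hh fun x hxF => ?_⟩⟩
    · exact hx x (Finset.mem_union_left _ hxF)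
    · exact hx x (Finset.mem_union_right _ hxF)
  isOpen_sUnion := by
    rintro S hS g ⟨s, hs, hgs⟩
    obtain ⟨F, hF⟩ := hS s hs g hgs
    exact ⟨F, fun h hh hx => ⟨s, hs, hF h hh hx⟩⟩

theorem eq_standard (τ : TopologicalSpace (Equiv.Perm ℤ)) (hg : @IsTopologicalGroup (Equiv.Perm ℤ) τ _)
    (N : Subgroup (Equiv.Perm ℤ)) (hN : @Pool.Agent.H3.SymTop.StdNhds ℤ τ N) :
    τ = standardTopology N ∧
      (@nhds (Equiv.Perm ℤ) τ 1).HasBasis (fun _ : Finset ℤ => True)
        (fun F => {g : Equiv.Perm ℤ | g ∈ N ∧ ∀ x ∈ F, g x = x}) := by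
  constructor
  · refine TopologicalSpace.ext_iff.2 fun s => ?_
    rw [isOpen_iff_mem_nhds]
    refine forall₂_congr fun g _ => ?_
    have h1 : s ∈ 𝓝 g ↔ (fun h : Equiv.Perm ℤ => g * h) ⁻¹' s ∈ 𝓝 (1 : Equiv.Perm ℤ) := by
      rw [← Filter.mem_map, map_mul_left_nhds, mul_one]
    rw [h1, hN]
    rfl
  · constructor
    intro V
    rw [hN]
    simp only [true_and]
    refine exists_congr fun F => ?_
    constructor
    · rintro h g ⟨h1, h2⟩
      exact h g h1 h2
    · intro h g h1 h2
      exact h ⟨h1, h2⟩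

/-- Every metrizable group topology on `S_∞ = Sym(ℤ)` is one of the four standard ones. -/
theorem result (τ : TopologicalSpace (Equiv.Perm ℤ))
    (hgroup : @IsTopologicalGroup (Equiv.Perm ℤ) τ _)
    (hmetr : @TopologicalSpace.MetrizableSpace (Equiv.Perm ℤ) τ) :
    ∃ N ∈ ({⊥, finitaryEven, finitary, ⊤} : Set (Subgroup (Equiv.Perm ℤ))),
      τ = standardTopology N ∧
      (@nhds (Equiv.Perm ℤ) τ 1).HasBasis (fun _ : Finset ℤ => True)
        (fun F => {g : Equiv.Perm ℤ | g ∈ N ∧ ∀ x ∈ F, g x = x}) := by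
  have hT2 : @T2Space (Equiv.Perm ℤ) τ := by
    let _ := τ
    infer_instance
  have hF : @FirstCountableTopology (Equiv.Perm ℤ) τ := by
    let _ := τ
    infer_instance
  rcases @Pool.Agent.H3.SymTop.trichotomy ℤ τ hgroup _ _ _ hT2 hF with h | h | h | h
  · exact ⟨⊥, by simp, eq_standard τ hgroup _ h⟩
  · exact ⟨finitaryEven, by simp, eq_standard τ hgroup _ h⟩
  · exact ⟨finitary, by simp, eq_standard τ hgroup _ h⟩
  · exact ⟨⊤, by simp, eq_standard τ hgroup _ h⟩

end Pool.Agent.Results.MP_8d0ff6_al.StandardTopologies
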